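import Pool.Agent.Work.MP_d266e7_co.C5.Final

namespace Pool.Agent.Work.MP_d266e7_co.Old.SeventyOne

/-- Every 5-uniform hypergraph has a transversal of size at most (71n+53m)/336. -/
theorem result :
    ∀ n : ℕ, ∀ E : Finset (Finset (Fin n)), (∀ e ∈ E, e.card = 5) →
      ∃ T : Finset (Fin n), (∀ e ∈ E, (e ∩ T).Nonempty) ∧
        336 * T.card ≤ 71 * n + 53 * E.card :=
  Pool.Agent.Work.MP_d266e7_co.C5.export_inf 71 53 336
    (fun _ hK => Pool.Agent.Work.MP_d266e7_co.C5.c5_71_53 hK)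

end Pool.Agent.Work.MP_d266e7_co.Old.SeventyOne
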