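import Pool.Agent.Work.MP_d266e7_co.P24B.KFin
import Pool.Agent.Work.MP_d266e7_co.P24Q.QFinal

namespace Pool.Agent.Work.MP_d266e7_co.Old.Traces

/-- Every 5-uniform hypergraph has a transversal of size at most (9n+7m+2h)/44, where h counts
the pairs of edges with three common vertices whose other four vertices lie in one edge. -/
theorem result :
    ∀ n : ℕ, ∀ E : Finset (Finset (Fin n)), (∀ e ∈ E, e.card = 5) →
      ∃ T : Finset (Fin n), (∀ e ∈ E, (e ∩ T).Nonempty) ∧
        44 * T.card ≤ 9 * n + 7 * E.card + 2 * ((E.powersetCard 2).filter fun p =>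
          ∃ c ∈ p, ∃ w ∈ p, (c ∩ w).card = 3 ∧ ∃ y ∈ E, symmDiff c w ⊆ y).card :=
  Pool.Agent.Work.MP_d266e7_co.C5.P24.export24 Pool.Agent.Work.MP_d266e7_co.C5.P24.bad2_all

end Pool.Agent.Work.MP_d266e7_co.Old.Traces
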